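import Mathlib

set_option autoImplicit false

open Matrix

namespace Pool.Agent.Results.MP_3aa442_co.SegmentsDisproof

/-- `symDS n` : the set of symmetric doubly stochastic real `n × n` matrices. -/
def symDS (n : ℕ) : Set (Matrix (Fin n) (Fin n) ℝ) :=
  {A | A.IsSymm ∧ A ∈ doublyStochastic ℝ (Fin n)}

/-- The matrix `C_n`: zero diagonal, every off-diagonal entry equal to `1 / (n - 1)`. -/
noncomputable def Cmat (n : ℕ) : Matrix (Fin n) (Fin n) ℝ :=
  Matrix.of fun i j => if i = j then 0 else 1 / ((n : ℝ) - 1)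

/-- Similarity of matrices: `B = S⁻¹ A S` with `S` invertible. -/
def Similar {n : ℕ} (A B : Matrix (Fin n) (Fin n) ℝ) : Prop :=
  ∃ S : Matrix (Fin n) (Fin n) ℝ, IsUnit S ∧ B = S⁻¹ * A * S

/-- Similarity by a permutation matrix: `B = Qᵀ A Q`. -/
def PermSimilar {n : ℕ} (A B : Matrix (Fin n) (Fin n) ℝ) : Prop :=
  ∃ σ : Equiv.Perm (Fin n), B = (σ.permMatrix ℝ)ᵀ * A * (σ.permMatrix ℝ)

/-- `A` is determined by its spectrum within the symmetric doubly stochastic matrices. -/
def IsDS {n : ℕ} (A : Matrix (Fin n) (Fin n) ℝ) : Prop :=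
  A ∈ symDS n ∧ ∀ B ∈ symDS n, Similar A B → PermSimilar A B

/-- `A` lies on `[I, C]`, or on `[I, P]` or `[C, P]` for some vertex `P` of `symDS n`. -/
def OnSegments {n : ℕ} (A : Matrix (Fin n) (Fin n) ℝ) : Prop :=
  A ∈ segment ℝ 1 (Cmat n) ∨
    ∃ P ∈ (symDS n).extremePoints ℝ, A ∈ segment ℝ 1 P ∨ A ∈ segment ℝ (Cmat n) P

/-- The `4 × 4` example with trace `a`. -/
noncomputable def exA (a : ℝ) : Matrix (Fin 4) (Fin 4) ℝ :=
  !![0, 1, 0, 0; 1, 0, 0, 0; 0, 0, a / 2, 1 - a / 2; 0, 0, 1 - a / 2, a / 2]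

lemma permSimilar_of {n : ℕ} {A B : Matrix (Fin n) (Fin n) ℝ} (σ : Equiv.Perm (Fin n))
    (h : ∀ i j, B (σ i) (σ j) = A i j) : PermSimilar A B := by
  refine ⟨σ, ?_⟩
  ext i j
  rw [Matrix.mul_apply]
  simp only [Matrix.mul_apply, Matrix.transpose_apply, Equiv.Perm.permMatrix,
    PEquiv.toMatrix_apply, Equiv.toPEquiv_apply, Option.mem_def, Option.some.injEq]
  have h1 : ∀ x : Fin n, (if σ x = j then (1 : ℝ) else 0) = if x = σ.symm j then 1 else 0 := by
    intro x
    congr 1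
    exact propext ⟨fun h => by rw [← h]; simp, fun h => by rw [h]; simp⟩
  have h2 : ∀ x : Fin n, (if σ x = i then (1 : ℝ) else 0) = if x = σ.symm i then 1 else 0 := by
    intro x
    congr 1
    exact propext ⟨fun h => by rw [← h]; simp, fun h => by rw [h]; simp⟩
  simp only [h1, h2]
  simp only [ite_mul, one_mul, zero_mul, Finset.sum_ite_eq', Finset.mem_univ, if_true, mul_ite,
    mul_one, mul_zero]
  have := h (σ.symm i) (σ.symm j)
  simpa using this

lemma exA_mem (a : ℝ) (h0 : 0 ≤ a) (h1 : a ≤ 2) : exA a ∈ symDS 4 := by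
  refine ⟨?_, ?_⟩
  · ext i j
    fin_cases i <;> fin_cases j <;> simp [exA]
  · rw [mem_doublyStochastic_iff_sum]
    refine ⟨?_, ?_, ?_⟩
    · intro i j
      fin_cases i <;> fin_cases j <;> simp [exA] <;> linarith
    · intro i
      fin_cases i <;> simp [exA, Fin.sum_univ_four]
    · intro i
      fin_cases i <;> simp [exA, Fin.sum_univ_four]

lemma exA_trace (a : ℝ) : (exA a).trace = a := by
  simp [Matrix.trace, exA, Fin.sum_univ_four]

/-- Entries of a symmetric doubly stochastic matrix vanish between different values of a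
fixed vector. -/
lemma entry_zero {n : ℕ} {B : Matrix (Fin n) (Fin n) ℝ} (hB : B ∈ symDS n) {w : Fin n → ℝ}
    (hw : B *ᵥ w = w) (i j : Fin n) (hij : w i ≠ w j) : B i j = 0 := by
  obtain ⟨hs, hd⟩ := hB
  have hnn : ∀ i j, 0 ≤ B i j := fun i j => nonneg_of_mem_doublyStochastic hd
  have hrow : ∀ i, ∑ j, B i j = 1 := sum_row_of_mem_doublyStochastic hd
  have hcol : ∀ j, ∑ i, B i j = 1 := sum_col_of_mem_doublyStochastic hd
  have hwi : ∀ i, ∑ j, B i j * w j = w i := by
    intro i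
    have := congrFun hw i
    simpa [Matrix.mulVec, dotProduct] using this
  have hsum : ∑ i, ∑ j, B i j * (w i - w j) ^ 2 = 0 := by
    have e1 : ∀ i j, B i j * (w i - w j) ^ 2
        = B i j * w i ^ 2 - 2 * (w i * (B i j * w j)) + B i j * w j ^ 2 := by
      intro i j; ring
    simp only [e1, Finset.sum_add_distrib, Finset.sum_sub_distrib]
    have a1 : ∑ i, ∑ j, B i j * w i ^ 2 = ∑ i, w i ^ 2 := by
      refine Finset.sum_congr rfl fun i _ => ?_
      rw [← Finset.sum_mul, hrow i, one_mul]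
    have a2 : ∑ i, ∑ j, 2 * (w i * (B i j * w j)) = 2 * ∑ i, w i ^ 2 := by
      rw [Finset.mul_sum]
      refine Finset.sum_congr rfl fun i _ => ?_
      rw [← Finset.mul_sum, ← Finset.mul_sum, hwi i]; ring
    have a3 : ∑ i, ∑ j, B i j * w j ^ 2 = ∑ i, w i ^ 2 := by
      rw [Finset.sum_comm]
      refine Finset.sum_congr rfl fun i _ => ?_
      rw [← Finset.sum_mul, hcol i, one_mul]
    rw [a1, a2, a3]; ring
  have h1 : ∀ i ∈ Finset.univ, 0 ≤ ∑ j, B i j * (w i - w j) ^ 2 := fun i _ =>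
    Finset.sum_nonneg fun j _ => mul_nonneg (hnn i j) (sq_nonneg _)
  have h2 := (Finset.sum_eq_zero_iff_of_nonneg h1).1 hsum i (Finset.mem_univ i)
  have h3 := (Finset.sum_eq_zero_iff_of_nonneg
    (fun j _ => mul_nonneg (hnn i j) (sq_nonneg _))).1 h2 j (Finset.mem_univ j)
  rcases mul_eq_zero.1 h3 with h | h
  · exact h
  · exact absurd (pow_eq_zero_iff (two_ne_zero)|>.1 h) (sub_ne_zero.2 hij)

/-- The core computation: four indices split in two pairs. -/
lemma pairs_case {B : Matrix (Fin 4) (Fin 4) ℝ} {a : ℝ}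
    (hB : B ∈ symDS 4)
    (htr : B.trace = a) (htr2 : (B * B).trace = (exA a * exA a).trace)
    (σ : Equiv.Perm (Fin 4))
    (z : ∀ i j : Fin 4, (i = 0 ∨ i = 1) → (j = 2 ∨ j = 3) → B (σ i) (σ j) = 0) :
    PermSimilar (exA a) B := by
  obtain ⟨hs, hd⟩ := hB
  have hrow : ∀ i, ∑ j, B i j = 1 := sum_row_of_mem_doublyStochastic hd
  have hsymm : ∀ i j, B i j = B j i := fun i j => hs.apply j i
  -- transport to `M i j = B (σ i) (σ j)`
  set M : Matrix (Fin 4) (Fin 4) ℝ := B.submatrix σ σ with hM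
  have hMrow : ∀ i, ∑ j, M i j = 1 := by
    intro i
    rw [← hrow (σ i)]
    exact Equiv.sum_comp σ (fun j => B (σ i) j)
  have hMs : ∀ i j, M i j = M j i := fun i j => hsymm _ _
  have hMtr : M.trace = a := by
    rw [← htr]
    exact Equiv.sum_comp σ (fun j => B j j)
  have hMtr2 : (M * M).trace = (exA a * exA a).trace := by
    rw [← htr2]
    have : M * M = (B * B).submatrix σ σ := by
      rw [hM, Matrix.submatrix_mul_equiv]
    rw [this]
    exact Equiv.sum_comp σ (fun j => (B * B) j j)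
  have z02 : M 0 2 = 0 := z 0 2 (Or.inl rfl) (Or.inl rfl)
  have z03 : M 0 3 = 0 := z 0 3 (Or.inl rfl) (Or.inr rfl)
  have z12 : M 1 2 = 0 := z 1 2 (Or.inr rfl) (Or.inl rfl)
  have z13 : M 1 3 = 0 := z 1 3 (Or.inr rfl) (Or.inr rfl)
  have z20 : M 2 0 = 0 := by rw [hMs]; exact z02
  have z30 : M 3 0 = 0 := by rw [hMs]; exact z03
  have z21 : M 2 1 = 0 := by rw [hMs]; exact z12
  have z31 : M 3 1 = 0 := by rw [hMs]; exact z13
  have r0 := hMrow 0
  have r1 := hMrow 1
  have r2 := hMrow 2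
  have r3 := hMrow 3
  rw [Fin.sum_univ_four] at r0 r1 r2 r3
  have s01 := hMs 1 0
  have s23 := hMs 3 2
  rw [z02, z03] at r0
  rw [z12, z13] at r1
  rw [z20, z21] at r2
  rw [z30, z31] at r3
  have e01 : M 0 1 = 1 - M 0 0 := by linarith
  have e10 : M 1 0 = 1 - M 0 0 := by linarith
  have e11 : M 1 1 = M 0 0 := by linarith
  have e23 : M 2 3 = 1 - M 2 2 := by linarith
  have e32 : M 3 2 = 1 - M 2 2 := by linarith
  have e33 : M 3 3 = M 2 2 := by linarith
  have t1 : M 0 0 + M 2 2 = a / 2 := by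
    have := hMtr
    simp only [Matrix.trace, Matrix.diag_apply, Fin.sum_univ_four] at this
    linarith
  have t2 : M 0 0 * M 2 2 = 0 := by
    have := hMtr2
    simp only [Matrix.trace, Matrix.diag_apply, Fin.sum_univ_four, Matrix.mul_apply] at this
    simp only [z02, z03, z12, z13, z20, z21, z30, z31, e01, e10, e11, e23, e32, e33] at this
    simp [exA] at this
    nlinarith [this, t1, congrArg (fun x => x ^ 2) t1]
  rcases mul_eq_zero.1 t2 with h | h
  · -- `M = exA a`
    have h22 : M 2 2 = a / 2 := by linarith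
    refine permSimilar_of σ ?_
    intro i j
    change M i j = exA a i j
    fin_cases i <;> fin_cases j <;>
      simp [exA, z02, z03, z12, z13, z20, z21, z30, z31, e01, e10, e11, e23, e32, e33, h, h22]
  · have h00 : M 0 0 = a / 2 := by linarith
    -- swap the two pairs
    let τ : Equiv.Perm (Fin 4) := (Equiv.swap 0 2).trans (Equiv.swap 1 3)
    refine permSimilar_of (τ.trans σ) ?_
    intro i j
    change M (τ i) (τ j) = exA a i j
    have τ0 : τ 0 = 2 := by decide
    have τ1 : τ 1 = 3 := by decide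
    have τ2 : τ 2 = 0 := by decide
    have τ3 : τ 3 = 1 := by decide
    fin_cases i <;> fin_cases j <;>
      simp [τ0, τ1, τ2, τ3, exA, z02, z03, z12, z13, z20, z21, z30, z31, e01, e10, e11, e23, e32,
        e33, h, h00]

lemma four_split {w : Fin 4 → ℝ} (hlone : ∀ i, ∃ j, j ≠ i ∧ w j = w i)
    (hne : ∃ i j, w i ≠ w j) :
    (w 0 = w 1 ∧ w 2 = w 3 ∧ w 0 ≠ w 2) ∨ (w 0 = w 2 ∧ w 1 = w 3 ∧ w 0 ≠ w 1) ∨
      (w 0 = w 3 ∧ w 1 = w 2 ∧ w 0 ≠ w 1) := by
  have h0 : w 1 = w 0 ∨ w 2 = w 0 ∨ w 3 = w 0 := by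
    obtain ⟨j, hj, h⟩ := hlone 0
    fin_cases j <;> simp_all
  have h1 : w 0 = w 1 ∨ w 2 = w 1 ∨ w 3 = w 1 := by
    obtain ⟨j, hj, h⟩ := hlone 1
    fin_cases j <;> simp_all
  have h2 : w 0 = w 2 ∨ w 1 = w 2 ∨ w 3 = w 2 := by
    obtain ⟨j, hj, h⟩ := hlone 2
    fin_cases j <;> simp_all
  have h3 : w 0 = w 3 ∨ w 1 = w 3 ∨ w 2 = w 3 := by
    obtain ⟨j, hj, h⟩ := hlone 3
    fin_cases j <;> simp_all
  have h4 : ¬ (w 0 = w 1 ∧ w 1 = w 2 ∧ w 2 = w 3) := by
    rintro ⟨a, b, c⟩
    obtain ⟨i, j, h⟩ := hne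
    apply h
    fin_cases i <;> fin_cases j <;> simp [a, b, c]
  generalize w 0 = a at *
  generalize w 1 = b at *
  generalize w 2 = c at *
  generalize w 3 = d at *
  clear hlone hne
  grind

lemma exA_isDS (a : ℝ) (h0 : 0 < a) (h1 : a < 1) : IsDS (exA a) := by
  refine ⟨exA_mem a h0.le (by linarith), ?_⟩
  rintro B hB ⟨S, hS, hBS⟩
  have hdet : IsUnit S.det := (Matrix.isUnit_iff_isUnit_det S).1 hS
  have hSS : S * S⁻¹ = 1 := Matrix.mul_nonsing_inv S hdet
  have hSS' : S⁻¹ * S = 1 := Matrix.nonsing_inv_mul S hdet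
  have htr : B.trace = a := by
    rw [hBS, Matrix.trace_mul_comm, ← Matrix.mul_assoc, hSS, Matrix.one_mul, exA_trace]
  have htr2 : (B * B).trace = (exA a * exA a).trace := by
    have : B * B = S⁻¹ * (exA a * exA a) * S := by
      rw [hBS]
      calc S⁻¹ * exA a * S * (S⁻¹ * exA a * S)
          = S⁻¹ * exA a * (S * S⁻¹) * exA a * S := by simp only [Matrix.mul_assoc]
        _ = S⁻¹ * (exA a * exA a) * S := by rw [hSS]; simp only [Matrix.mul_one, Matrix.mul_assoc]
    rw [this, Matrix.trace_mul_comm, ← Matrix.mul_assoc, hSS, Matrix.one_mul]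
  -- a non-constant fixed vector
  obtain ⟨w, hw, hne⟩ : ∃ w : Fin 4 → ℝ, B *ᵥ w = w ∧ ∃ i j, w i ≠ w j := by
    by_contra hcon
    push Not at hcon
    have fix : ∀ u : Fin 4 → ℝ, exA a *ᵥ u = u → B *ᵥ (S⁻¹ *ᵥ u) = S⁻¹ *ᵥ u := by
      intro u hu
      rw [hBS, Matrix.mulVec_mulVec, Matrix.mul_assoc, hSS, Matrix.mul_one,
        ← Matrix.mulVec_mulVec, hu]
    have hu1 : exA a *ᵥ ![1, 1, 0, 0] = ![1, 1, 0, 0] := by
      ext i; fin_cases i <;> simp [exA, Matrix.mulVec, dotProduct, Fin.sum_univ_four]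
    have hu2 : exA a *ᵥ ![0, 0, 1, 1] = ![0, 0, 1, 1] := by
      ext i; fin_cases i <;> simp [exA, Matrix.mulVec, dotProduct, Fin.sum_univ_four]
    have c1 := hcon _ (fix _ hu1)
    have c2 := hcon _ (fix _ hu2)
    set w1 := S⁻¹ *ᵥ ![1, 1, 0, 0] with hw1
    set w2 := S⁻¹ *ᵥ ![0, 0, 1, 1] with hw2
    have b1 : S *ᵥ w1 = ![1, 1, 0, 0] := by
      rw [hw1, Matrix.mulVec_mulVec, hSS, Matrix.one_mulVec]
    have b2 : S *ᵥ w2 = ![0, 0, 1, 1] := by
      rw [hw2, Matrix.mulVec_mulVec, hSS, Matrix.one_mulVec]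
    have hcomb : w2 0 • w1 - w1 0 • w2 = 0 := by
      ext i
      have e1 := c1 i 0
      have e2 := c2 i 0
      simp [e1, e2]; ring
    have : S *ᵥ (w2 0 • w1 - w1 0 • w2) = 0 := by rw [hcomb, Matrix.mulVec_zero]
    rw [Matrix.mulVec_sub, Matrix.mulVec_smul, Matrix.mulVec_smul, b1, b2] at this
    have t0 := congrFun this 0
    have t2 := congrFun this 2
    simp at t0 t2
    have hz1 : w1 = 0 := by
      ext i; rw [c1 i 0, t2]; rfl
    have := b1
    rw [hz1, Matrix.mulVec_zero] at this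
    have := congrFun this 0
    simp at this
  -- entries vanish between different values
  have hz : ∀ i j, w i ≠ w j → B i j = 0 := fun i j => entry_zero hB hw i j
  have hnn : ∀ i j, 0 ≤ B i j := fun i j => nonneg_of_mem_doublyStochastic hB.2
  have hrow : ∀ i, ∑ j, B i j = 1 := sum_row_of_mem_doublyStochastic hB.2
  have htr' : B 0 0 + B 1 1 + B 2 2 + B 3 3 = a := by
    have := htr
    simpa [Matrix.trace, Matrix.diag_apply, Fin.sum_univ_four] using this
  have hsymm : ∀ i j, B i j = B j i := fun i j => hB.1.apply j i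
  -- no index is separated from all the others
  have hlone : ∀ i, ∃ j, j ≠ i ∧ w j = w i := by
    intro i
    by_contra hc
    push Not at hc
    have hi : B i i = 1 := by
      have := hrow i
      rw [Finset.sum_eq_single i] at this
      · exact this
      · intro j _ hj
        exact hz i j (fun h => hc j hj h.symm)
      · simp
    have : B i i ≤ a := by
      rw [← htr']
      have := hnn 0 0
      have := hnn 1 1
      have := hnn 2 2
      have := hnn 3 3
      fin_cases i <;> simp <;> linarith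
    linarith
  -- split into the two pairs
  have key : ∀ σ : Equiv.Perm (Fin 4), w (σ 0) = w (σ 1) → w (σ 2) = w (σ 3) →
      w (σ 0) ≠ w (σ 2) → PermSimilar (exA a) B := by
    intro σ h01 h23 h02
    refine pairs_case hB htr htr2 σ ?_
    intro i j hi hj
    refine hz _ _ ?_
    rcases hi with rfl | rfl <;> rcases hj with rfl | rfl
    · exact h02
    · rw [← h23]; exact h02
    · rw [← h01]; exact h02
    · rw [← h01, ← h23]; exact h02
  rcases four_split hlone hne with ⟨x, y, z⟩ | ⟨x, y, z⟩ | ⟨x, y, z⟩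
  · exact key (Equiv.refl _) x y z
  · have σ0 : (Equiv.swap 1 2 : Equiv.Perm (Fin 4)) 0 = 0 := by decide
    have σ1 : (Equiv.swap 1 2 : Equiv.Perm (Fin 4)) 1 = 2 := by decide
    have σ2 : (Equiv.swap 1 2 : Equiv.Perm (Fin 4)) 2 = 1 := by decide
    have σ3 : (Equiv.swap 1 2 : Equiv.Perm (Fin 4)) 3 = 3 := by decide
    refine key (Equiv.swap 1 2) ?_ ?_ ?_
    · rw [σ0, σ1]; exact x
    · rw [σ2, σ3]; exact y
    · rw [σ0, σ2]; exact z
  · have σ0 : (Equiv.swap 1 3 : Equiv.Perm (Fin 4)) 0 = 0 := by decide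
    have σ1 : (Equiv.swap 1 3 : Equiv.Perm (Fin 4)) 1 = 3 := by decide
    have σ2 : (Equiv.swap 1 3 : Equiv.Perm (Fin 4)) 2 = 2 := by decide
    have σ3 : (Equiv.swap 1 3 : Equiv.Perm (Fin 4)) 3 = 1 := by decide
    refine key (Equiv.swap 1 3) ?_ ?_ ?_
    · rw [σ0, σ1]; exact x
    · rw [σ2, σ3]; exact y.symm
    · rw [σ0, σ2]; exact fun h => z (h.trans y.symm)

/-- `exA a` is not a vertex: it is the midpoint of `exA (a / 2)` and `exA (3 * a / 2)`. -/
lemma exA_not_extreme (a : ℝ) (h0 : 0 < a) (h1 : a < 1) :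
    exA a ∉ (symDS 4).extremePoints ℝ := by
  intro h
  have hmid : exA a ∈ openSegment ℝ (exA (a / 2)) (exA (3 * a / 2)) := by
    refine ⟨1 / 2, 1 / 2, by norm_num, by norm_num, by norm_num, ?_⟩
    ext i j
    fin_cases i <;> fin_cases j <;> simp [exA] <;> ring
  have := h.2 (exA_mem (a / 2) (by linarith) (by linarith))
    (exA_mem (3 * a / 2) (by linarith) (by linarith)) hmid
  have h22 := congrFun (congrFun this 2) 2
  simp [exA] at h22
  linarith

/-- The example lies on none of the segments. -/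
lemma exA_not_onSegments (a : ℝ) (h0 : 0 < a) (h1 : a < 1) : ¬ OnSegments (exA a) := by
  rintro (h | ⟨P, hP, h | h⟩)
  · -- segment `[I, C]`
    obtain ⟨s, t, hs, ht, hst, hA⟩ := h
    have e02 := congrFun (congrFun hA 0) 2
    have e01 := congrFun (congrFun hA 0) 1
    simp [exA, Cmat] at e02 e01
    rcases e02 with h | h
    · simp [h] at e01
    · norm_num at h
  · -- segment `[I, P]`
    obtain ⟨s, t, hs, ht, hst, hA⟩ := h
    have hPnn : ∀ i j, 0 ≤ P i j := fun i j => nonneg_of_mem_doublyStochastic hP.1.2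
    have e00 := congrFun (congrFun hA 0) 0
    simp [exA] at e00
    have hs0 : s = 0 := by
      have := mul_nonneg ht (hPnn 0 0)
      linarith
    have ht1 : t = 1 := by linarith
    have hPA : P = exA a := by
      rw [← hA, hs0, ht1]; simp
    rw [hPA] at hP
    exact exA_not_extreme a h0 h1 hP
  · -- segment `[C, P]`
    obtain ⟨s, t, hs, ht, hst, hA⟩ := h
    have hPnn : ∀ i j, 0 ≤ P i j := fun i j => nonneg_of_mem_doublyStochastic hP.1.2
    have e02 := congrFun (congrFun hA 0) 2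
    simp [exA, Cmat] at e02
    have hs0 : s = 0 := by
      have := mul_nonneg ht (hPnn 0 2)
      have h3 : (0 : ℝ) < (4 - 1)⁻¹ := by norm_num
      nlinarith
    have ht1 : t = 1 := by linarith
    have hPA : P = exA a := by
      rw [← hA, hs0, ht1]; simp
    rw [hPA] at hP
    exact exA_not_extreme a h0 h1 hP

/-- The negation of the assertion of the question. -/
theorem result :
    ¬ ∀ n : ℕ, 2 ≤ n → ∀ a : ℝ, 0 < a → a ≤ n →
      ∀ A : Matrix (Fin n) (Fin n) ℝ, A.trace = a → IsDS A → OnSegments A := by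
  intro h
  have := h 4 (by norm_num) (1 / 2) (by norm_num) (by norm_num) (exA (1 / 2))
    (exA_trace _) (exA_isDS _ (by norm_num) (by norm_num))
  exact exA_not_onSegments _ (by norm_num) (by norm_num) this

end Pool.Agent.Results.MP_3aa442_co.SegmentsDisproof
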